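import Pool.Agent.Lib.MP_7874c9_co.Model

-- part Pool.Agent.Lib.MP_7874c9_co.Fast
section

namespace Pool.Agent.Lib.MP_7874c9_co

/-- force evaluation -/
def frc (n : ℕ) (k : ℕ → ℕ) : ℕ := Nat.rec (k 0) (fun m _ => k (Nat.succ m)) n

theorem frc_eq (n : ℕ) (k : ℕ → ℕ) : frc n k = k n := by
  cases n <;> rfl

/-- bitwise or of `f a` over the entries `a` of a list coded in base 512 -/
def orDig (f : ℕ → ℕ) (fuel : ℕ) : ℕ → ℕ :=
  Nat.rec (fun _ => 0) (fun _ ih L =>
    Nat.rec 0 (fun L' _ => Nat.lor (frc (Nat.mod L' 512) f) (ih (Nat.div L' 512))) L) fuel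

theorem orDig_zero (f : ℕ → ℕ) (L : ℕ) : orDig f 0 L = 0 := rfl
theorem orDig_nil (f : ℕ → ℕ) (n : ℕ) : orDig f (n + 1) 0 = 0 := rfl
theorem orDig_cons (f : ℕ → ℕ) (n L : ℕ) :
    orDig f (n + 1) (L + 1) = f (L % 512) ||| orDig f n (L / 512) := by
  rw [← frc_eq (L % 512) f]; rfl

theorem testBit_orDig (f : ℕ → ℕ) (w : ℕ) : ∀ (n L : ℕ), (orDig f n L).testBit w = true ↔
    ∃ a, (orDig (fun a => Nat.shiftLeft 1 a) n L).testBit a = true ∧ (f a).testBit w = true
  | 0, L => by simp [orDig_zero]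
  | n + 1, 0 => by simp [orDig_nil]
  | n + 1, L + 1 => by
    have e : ∀ a : ℕ, Nat.shiftLeft 1 a = 2 ^ a := fun a => by
      show 1 <<< a = 2 ^ a
      simp [Nat.shiftLeft_eq]
    rw [orDig_cons, orDig_cons, Nat.testBit_or, Bool.or_eq_true, testBit_orDig f w n]
    simp only [Nat.testBit_or, Bool.or_eq_true, e, Nat.testBit_two_pow, decide_eq_true_eq]
    constructor
    · rintro (h | ⟨a, h1, h2⟩)
      · exact ⟨_, Or.inl rfl, h⟩
      · exact ⟨a, Or.inr h1, h2⟩
    · rintro ⟨a, h1 | h1, h2⟩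
      · exact Or.inl (h1 ▸ h2)
      · exact Or.inr ⟨a, h1, h2⟩

/-- row of a table with 256-bit rows -/
def row (T v : ℕ) : ℕ :=
  Nat.land (Nat.shiftRight T (Nat.mul 256 v))
    115792089237316195423570985008687907853269984665640564039457584007913129639935

/-- fast version of `reach` -/
def reachF (NB NL : ℕ) (d : ℕ) : ℕ → ℕ → ℕ :=
  Nat.rec (fun v used => frc (row NB v) fun m => Nat.xor m (Nat.land m used))
    (fun _ ih v used => orDig (fun a =>
      Nat.rec (frc (Nat.lor used (Nat.shiftLeft 1 a)) (ih a)) (fun _ _ => 0)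
        (Nat.land (Nat.shiftRight used a) 1)) 40 (row NL v)) d

theorem reachF_zero (NB NL v used : ℕ) :
    reachF NB NL 0 v used = row NB v ^^^ (row NB v &&& used) := by
  have : reachF NB NL 0 v used = frc (row NB v) fun m => Nat.xor m (Nat.land m used) := rfl
  rw [this, frc_eq]; rfl

theorem reachF_succ (NB NL d v used : ℕ) :
    reachF NB NL (d + 1) v used = orDig (fun a =>
      if used.testBit a = true then 0 else reachF NB NL d a (used ||| 2 ^ a)) 40 (row NL v) := by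
  have : reachF NB NL (d + 1) v used = orDig (fun a =>
      Nat.rec (frc (Nat.lor used (Nat.shiftLeft 1 a)) (reachF NB NL d a)) (fun _ _ => 0)
        (Nat.land (Nat.shiftRight used a) 1)) 40 (row NL v) := rfl
  rw [this]
  congr 1
  funext a
  have e : Nat.shiftLeft 1 a = 2 ^ a := by
    show 1 <<< a = 2 ^ a
    simp [Nat.shiftLeft_eq]
  have e2 : Nat.land (Nat.shiftRight used a) 1 = if used.testBit a = true then 1 else 0 := by
    show (used >>> a) &&& 1 = _
    rw [Nat.and_one_is_mod, Nat.testBit_eq_decide_div_mod_eq, Nat.shiftRight_eq_div_pow]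
    by_cases h : used / 2 ^ a % 2 = 1
    · simp [h]
    · simp only [h, decide_false, Bool.false_eq_true, if_false]; omega
  rw [e2, frc_eq, e]
  split_ifs <;> rfl

theorem reachF_eq (NB NL : ℕ) (f : ℕ → ℕ) (hf : ∀ v, f v < 2 ^ 256)
    (h : ∀ v < 256, row NB v = f v ∧ orDig (fun a => Nat.shiftLeft 1 a) 40 (row NL v) = f v) :
    ∀ (d v used : ℕ), v < 256 → reachF NB NL d v used = reach f d v used
  | 0, v, used, hv => by
    rw [reachF_zero, (h v hv).1]; simp only [reach, force_eq]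
  | d + 1, v, used, hv => by
    apply Nat.eq_of_testBit_eq
    intro w
    rw [Bool.eq_iff_iff, reachF_succ, testBit_orDig, reach_succ f hf, (h v hv).2]
    have hlt : ∀ a, (f v).testBit a = true → a < 256 := by
      intro a ha
      by_contra hc
      have : (f v).testBit a = false := Nat.testBit_eq_false_of_lt
        (lt_of_lt_of_le (hf v) (Nat.pow_le_pow_right (by norm_num) (by omega)))
      simp [this] at ha
    constructor
    · rintro ⟨a, h1, h2⟩
      by_cases hu : used.testBit a = true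
      · simp [hu] at h2
      · rw [if_neg hu, reachF_eq NB NL f hf h d a _ (hlt a h1)] at h2
        exact ⟨a, ⟨h1, by simpa using hu⟩, h2⟩
    · rintro ⟨a, ⟨h1, hu⟩, h2⟩
      refine ⟨a, h1, ?_⟩
      rw [if_neg (by simp [hu]), reachF_eq NB NL f hf h d a _ (hlt a h1)]
      exact h2

/-- table of masks (its correctness is checked, not proved) -/
def mkNB (TO : ℕ) : ℕ :=
  Nat.rec 0 (fun i acc => Nat.lor acc (Nat.shiftLeft (nb TO i) (Nat.mul 256 i))) (256 : ℕ)

/-- coded list of the set bits -/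
def mkDig (m : ℕ) : ℕ :=
  Nat.rec 0 (fun i acc => Nat.rec acc (fun _ _ => Nat.add (Nat.mul acc 512) (Nat.succ i))
    (Nat.land (Nat.shiftRight m i) 1)) (256 : ℕ)

/-- table of coded lists -/
def mkNL (NB : ℕ) : ℕ :=
  Nat.rec 0 (fun i acc => Nat.lor acc (Nat.shiftLeft (frc (row NB i) mkDig) (Nat.mul 256 i)))
    (256 : ℕ)

def tabOk (TO NB NL : ℕ) : Bool :=
  (List.range 256).all fun v =>
    Nat.beq (row NB v) (nb TO v) &&
      Nat.beq (orDig (fun a => Nat.shiftLeft 1 a) 40 (row NL v)) (nb TO v)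

def chkF (b NB NL s : ℕ) : Bool :=
  !(validMask b).testBit s ||
    ((reachF NB NL 2 s (2 ^ s) &&& row NB s) == 0 &&
      force (reachF NB NL 4 s (2 ^ s)) (fun m =>
        if (m &&& row NB s) = 0 ∧ (m ||| row NB s ||| 2 ^ s) = validMask b then 1 else 0) == 1)

def goodF (b TO : ℕ) : Bool :=
  decide (3 ≤ b) && decide (b ≤ 64) && symOk TO TO b b && irrOk TO &&
    Nat.beq 1 (frc (mkNB TO) fun NB => frc (mkNL NB) fun NL =>
      cond (tabOk TO NB NL && (List.range 128).all (chkF b NB NL)) 1 0)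

theorem good_of_goodF {b TO : ℕ} (h : goodF b TO = true) : good b TO = true := by
  simp only [goodF, frc_eq, Bool.and_eq_true] at h
  simp only [good, Bool.and_eq_true]
  refine ⟨h.1, ?_⟩
  have h2 := h.2
  set NB := mkNB TO
  set NL := mkNL NB
  have h3 : (tabOk TO NB NL && (List.range 128).all (chkF b NB NL)) = true := by
    by_contra hc
    rw [Bool.not_eq_true] at hc
    rw [hc] at h2
    simp at h2
  rw [Bool.and_eq_true] at h3
  have h4 : ∀ v < 256, row NB v = nb TO v ∧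
      orDig (fun a => Nat.shiftLeft 1 a) 40 (row NL v) = nb TO v := by
    intro v hv
    have := h3.1
    simp only [tabOk, List.all_eq_true, List.mem_range, Bool.and_eq_true, Nat.beq_eq] at this
    exact this v hv
  have h5 := h3.2
  simp only [List.all_eq_true, List.mem_range] at h5 ⊢
  intro s hs
  have h6 := h5 s hs
  unfold chkF at h6
  unfold chk
  rw [reachF_eq NB NL _ (nb_lt TO) h4 2 s _ (by omega),
    reachF_eq NB NL _ (nb_lt TO) h4 4 s _ (by omega), (h4 s (by omega)).1] at h6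
  exact h6

end Pool.Agent.Lib.MP_7874c9_co
end

-- part Pool.Agent.Lib.MP_7874c9_co.Glue
section

namespace Pool.Agent.Lib.MP_7874c9_co

open SimpleGraph

/-- block number of a vertex -/
def cp (b v : ℕ) : ℕ := if v < b then 0 else (v - b) / 24 + 1
/-- position of a vertex inside its block -/
def lc (b v : ℕ) : ℕ := if v < b then v else (v - b) % 24
/-- the vertex with given block and position -/
def mkv (b j x : ℕ) : ℕ := if j = 0 then x else b + 24 * (j - 1) + x

/-- validity of a block and position -/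
def Val (b j x : ℕ) : Prop := (j = 0 ∧ x < b) ∨ (j ≠ 0 ∧ x < 24)

theorem val_cp_lc (b v : ℕ) : Val b (cp b v) (lc b v) := by
  unfold Val cp lc; split_ifs <;> omega

theorem cp_lc_inj {b u v : ℕ} (h1 : cp b u = cp b v) (h2 : lc b u = lc b v) : u = v := by
  unfold cp lc at *; split_ifs at * <;> omega

theorem cp_mkv {b j x : ℕ} (h : Val b j x) : cp b (mkv b j x) = j := by
  unfold Val at h; unfold cp mkv; split_ifs <;> omega

theorem lc_mkv {b j x : ℕ} (h : Val b j x) : lc b (mkv b j x) = x := by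
  unfold Val at h; unfold lc mkv; split_ifs <;> omega

theorem mkv_lt {b j x k : ℕ} (h : Val b j x) (hj : j ≤ k) : mkv b j x < b + 24 * k := by
  unfold Val at h; unfold mkv; split_ifs <;> omega

theorem cp_le {b v k : ℕ} (h : v < b + 24 * k) : cp b v ≤ k := by
  unfold cp; split_ifs <;> omega

theorem R_map {TO j x i y : ℕ} (g : ℕ → ℕ) (hj : g j = 0 ↔ j = 0) (hi : g i = 0 ↔ i = 0)
    (h : R TO j x i y) : R TO (g j) x (g i) y := by
  unfold R at *
  rcases h with ⟨a, b, c⟩ | ⟨a, b, c⟩ | ⟨a, b, c⟩ | ⟨a, b, c⟩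
  · exact Or.inl ⟨hj.2 a, hi.2 b, c⟩
  · exact Or.inr (Or.inl ⟨hj.2 a, fun h => b (hi.1 h), c⟩)
  · exact Or.inr (Or.inr (Or.inl ⟨fun h => a (hj.1 h), hi.2 b, c⟩))
  · exact Or.inr (Or.inr (Or.inr ⟨fun h => a (hj.1 h), by rw [b], c⟩))

theorem R_blocks {TO j x i y : ℕ} (h : R TO j x i y) : j = 0 ∨ i = 0 ∨ j = i := by
  unfold R at h; tauto

section
variable {b TO : ℕ} (hg : good b TO = true)
include hg

theorem good_b : 3 ≤ b ∧ b ≤ 64 := by
  simp only [good, Bool.and_eq_true, decide_eq_true_eq] at hg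
  exact ⟨hg.1.1.1.1, hg.1.1.1.2⟩

theorem R_spec {j x i y : ℕ} (hx : x < 64) (h : R TO j x i y) :
    R TO i y j x ∧ Val b i y ∧ ¬ (j = i ∧ x = y) := by
  have hb := good_b hg
  simp only [good, Bool.and_eq_true, decide_eq_true_eq] at hg
  unfold R Val at *
  rcases h with ⟨a, b, c⟩ | ⟨a, b, c⟩ | ⟨a, b, c⟩ | ⟨a, b, c⟩
  · have := symOk_spec hg.1.1.2 hx c
    refine ⟨Or.inl ⟨b, a, this.2.2⟩, Or.inl ⟨b, this.2.1⟩, ?_⟩
    rintro ⟨-, rfl⟩
    exact irrOk_spec hg.1.2 hx c
  · have := symOk_spec symC hx c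
    exact ⟨Or.inr (Or.inr (Or.inl ⟨b, a, this.2.2⟩)), Or.inr ⟨b, this.2.1⟩, by omega⟩
  · have := symOk_spec symD hx c
    exact ⟨Or.inr (Or.inl ⟨b, a, this.2.2⟩), Or.inl ⟨b, by omega⟩, by omega⟩
  · have := symOk_spec symA hx c
    refine ⟨Or.inr (Or.inr (Or.inr ⟨b ▸ a, b.symm, this.2.2⟩)), Or.inr ⟨b ▸ a, this.2.1⟩, ?_⟩
    rintro ⟨-, rfl⟩
    exact irrOk_spec irrA hx c

theorem val_lt {j x : ℕ} (h : Val b j x) : x < 64 := by
  have := good_b hg
  unfold Val at h; omega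

theorem nb_code {j x i y : ℕ} (hj : j ≤ 3) (hi : i ≤ 3) (hx : Val b j x) (hy : Val b i y) :
    (nb TO (64 * j + x)).testBit (64 * i + y) = true ↔ R TO j x i y := by
  have h1 := val_lt hg hx
  have h2 := val_lt hg hy
  rw [nb_iff TO _ _ (by omega)]
  have e1 : (64 * j + x) / 64 = j := by omega
  have e2 : (64 * j + x) % 64 = x := by omega
  have e3 : (64 * i + y) / 64 = i := by omega
  have e4 : (64 * i + y) % 64 = y := by omega
  rw [e1, e2, e3, e4]
  exact ⟨fun h => h.2, fun h => ⟨by omega, h⟩⟩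

theorem chk_spec {j x : ℕ} (hj : j ≤ 1) (hx : Val b j x) :
    reach (nb TO) 2 (64 * j + x) (2 ^ (64 * j + x)) &&& nb TO (64 * j + x) = 0 ∧
    reach (nb TO) 4 (64 * j + x) (2 ^ (64 * j + x)) &&& nb TO (64 * j + x) = 0 ∧
    reach (nb TO) 4 (64 * j + x) (2 ^ (64 * j + x)) ||| nb TO (64 * j + x) ||| 2 ^ (64 * j + x)
      = validMask b := by
  have hb := good_b hg
  have h1 := val_lt hg hx
  simp only [good, Bool.and_eq_true, List.all_eq_true, List.mem_range] at hg
  have h2 := hg.2 (64 * j + x) (by omega)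
  have hv : (validMask b).testBit (64 * j + x) = true := by
    rw [validMask_iff _ _ hb.2]
    unfold Val at hx; omega
  simp only [chk, hv, Bool.not_true, Bool.false_or, Bool.and_eq_true, beq_iff_eq, force_eq] at h2
  refine ⟨h2.1, ?_⟩
  by_contra hc
  have h3 := h2.2
  rw [if_neg hc] at h3
  omega

end

/-- the glued graph -/
def glued {b TO : ℕ} (hg : good b TO = true) (n : ℕ) : SimpleGraph (Fin n) where
  Adj u v := R TO (cp b u) (lc b u) (cp b v) (lc b v)
  symm := ⟨fun u _ h => (R_spec hg (val_lt hg (val_cp_lc b u)) h).1⟩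
  loopless := ⟨fun u h => (R_spec hg (val_lt hg (val_cp_lc b u)) h).2.2 ⟨rfl, rfl⟩⟩

/-- folding of the blocks onto four blocks -/
def fold (p q : ℕ) (i : ℕ) : ℕ := if i = 0 then 0 else if i = p then 1 else if i = q then 2 else 3

theorem fold_le (p q i : ℕ) : fold p q i ≤ 3 := by unfold fold; split_ifs <;> omega
theorem fold_zero (p q i : ℕ) : fold p q i = 0 ↔ i = 0 := by
  unfold fold; split_ifs with h1 h2 h3 <;> simp [h1]
theorem fold_inj {p q r i j : ℕ} (hi : i = 0 ∨ i = p ∨ i = q ∨ i = r)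
    (hj : j = 0 ∨ j = p ∨ j = q ∨ j = r) (h : fold p q i = fold p q j) : i = j := by
  unfold fold at h; split_ifs at h <;> omega

theorem and_zero_not {m m' w : ℕ} (h : m &&& m' = 0) (h1 : m.testBit w = true)
    (h2 : m'.testBit w = true) : False := by
  have : (m &&& m').testBit w = true := by rw [Nat.testBit_and, h1, h2]; rfl
  rw [h] at this; simp at this

section
variable {b TO : ℕ} (hg : good b TO = true) {n : ℕ}

theorem fold_adj (p q : ℕ) {u v : Fin n} (h : (glued hg n).Adj u v) :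
    (nb TO (64 * fold p q (cp b u) + lc b u)).testBit (64 * fold p q (cp b v) + lc b v) = true := by
  have hv : ∀ w : Fin n, Val b (fold p q (cp b w)) (lc b w) := by
    intro w
    have := val_cp_lc b w
    have := fold_zero p q (cp b w)
    unfold Val at *; tauto
  rw [nb_code hg (fold_le _ _ _) (fold_le _ _ _) (hv u) (hv v)]
  exact R_map (fold p q) (fold_zero _ _ _) (fold_zero _ _ _) h

include hg in
theorem fold_ne {p q r : ℕ} {u v : Fin n} (h : u ≠ v)
    (hu : cp b u = 0 ∨ cp b u = p ∨ cp b u = q ∨ cp b u = r)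
    (hv : cp b v = 0 ∨ cp b v = p ∨ cp b v = q ∨ cp b v = r) :
    64 * fold p q (cp b u) + lc b u ≠ 64 * fold p q (cp b v) + lc b v := by
  intro e
  have h1 := val_lt hg (val_cp_lc b u)
  have h2 := val_lt hg (val_cp_lc b v)
  have h3 : fold p q (cp b u) = fold p q (cp b v) := by omega
  exact h (Fin.ext (cp_lc_inj (fold_inj hu hv h3) (by omega)))

theorem no_four : ¬ cycleGraph 4 ⊑ glued hg n := by
  rintro ⟨f⟩
  have adj : ∀ i j, (cycleGraph 4).Adj i j → (glued hg n).Adj (f i) (f j) :=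
    fun i j h => f.toHom.map_rel h
  have ne : ∀ i j, i ≠ j → f i ≠ f j := fun i j h e => h (f.injective e)
  have b01 := R_blocks (adj 0 1 (by decide))
  have b23 := R_blocks (adj 2 3 (by decide))
  set p := max (cp b (f 0)) (cp b (f 1)) with hp
  set q := max (cp b (f 2)) (cp b (f 3)) with hq
  have m : ∀ i, cp b (f i) = 0 ∨ cp b (f i) = p ∨ cp b (f i) = q ∨ cp b (f i) = q := by
    intro i
    fin_cases i <;> simp only [Fin.zero_eta, Fin.mk_one, Fin.reduceFinMk] <;> omega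
  have hj : fold p q (cp b (f 0)) ≤ 1 := by
    unfold fold; split_ifs <;> omega
  have hv : Val b (fold p q (cp b (f 0))) (lc b (f 0)) := by
    have := val_cp_lc b (f 0)
    have := fold_zero p q (cp b (f 0))
    unfold Val at *; tauto
  have N := fun i j h => fold_ne hg (ne i j h) (m i) (m j)
  refine and_zero_not (chk_spec hg hj hv).1 ?_ (fold_adj hg p q (adj 0 3 (by decide)))
  rw [reach_two _ (nb_lt TO)]
  exact ⟨_, _, fold_adj hg p q (adj 0 1 (by decide)), fold_adj hg p q (adj 1 2 (by decide)),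
    fold_adj hg p q (adj 2 3 (by decide)), N 0 1 (by decide), N 0 2 (by decide),
    N 1 2 (by decide), N 0 3 (by decide), N 1 3 (by decide), N 2 3 (by decide)⟩

theorem no_six : ¬ cycleGraph 6 ⊑ glued hg n := by
  rintro ⟨f⟩
  have adj : ∀ i j, (cycleGraph 6).Adj i j → (glued hg n).Adj (f i) (f j) :=
    fun i j h => f.toHom.map_rel h
  have ne : ∀ i j, i ≠ j → f i ≠ f j := fun i j h e => h (f.injective e)
  have b01 := R_blocks (adj 0 1 (by decide))
  have b23 := R_blocks (adj 2 3 (by decide))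
  have b45 := R_blocks (adj 4 5 (by decide))
  set p := max (cp b (f 0)) (cp b (f 1)) with hp
  set q := max (cp b (f 2)) (cp b (f 3)) with hq
  set r := max (cp b (f 4)) (cp b (f 5)) with hr
  have m : ∀ i, cp b (f i) = 0 ∨ cp b (f i) = p ∨ cp b (f i) = q ∨ cp b (f i) = r := by
    intro i
    have hi : i = 0 ∨ i = 1 ∨ i = 2 ∨ i = 3 ∨ i = 4 ∨ i = 5 := by revert i; decide
    rcases hi with rfl | rfl | rfl | rfl | rfl | rfl
    · clear b23 b45 hq hr; omega
    · clear b23 b45 hq hr; omega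
    · clear b01 b45 hp hr; omega
    · clear b01 b45 hp hr; omega
    · clear b01 b23 hp hq; omega
    · clear b01 b23 hp hq; omega
  have hj : fold p q (cp b (f 0)) ≤ 1 := by
    unfold fold; split_ifs <;> omega
  have hv : Val b (fold p q (cp b (f 0))) (lc b (f 0)) := by
    have := val_cp_lc b (f 0)
    have := fold_zero p q (cp b (f 0))
    unfold Val at *; tauto
  have N := fun i j h => fold_ne hg (ne i j h) (m i) (m j)
  refine and_zero_not (chk_spec hg hj hv).2.1 ?_ (fold_adj hg p q (adj 0 5 (by decide)))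
  rw [reach_four _ (nb_lt TO)]
  exact ⟨_, _, _, _, ⟨fold_adj hg p q (adj 0 1 (by decide)), fold_adj hg p q (adj 1 2 (by decide)),
    fold_adj hg p q (adj 2 3 (by decide)), fold_adj hg p q (adj 3 4 (by decide)),
    fold_adj hg p q (adj 4 5 (by decide))⟩, N 0 1 (by decide),
    ⟨N 0 2 (by decide), N 1 2 (by decide)⟩,
    ⟨⟨N 0 3 (by decide), N 1 3 (by decide)⟩, N 2 3 (by decide)⟩,
    ⟨⟨⟨N 0 4 (by decide), N 1 4 (by decide)⟩, N 2 4 (by decide)⟩, N 3 4 (by decide)⟩,
    ⟨⟨⟨N 0 5 (by decide), N 1 5 (by decide)⟩, N 2 5 (by decide)⟩, N 3 5 (by decide)⟩,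
    N 4 5 (by decide)⟩

end

theorem six_of_path {V : Type*} (G : SimpleGraph V) (u a b c d v : V)
    (h1 : G.Adj u a) (h2 : G.Adj a b) (h3 : G.Adj b c) (h4 : G.Adj c d) (h5 : G.Adj d v)
    (h6 : G.Adj v u) (n1 : u ≠ b) (n2 : u ≠ c) (n3 : u ≠ d) (n4 : a ≠ c) (n5 : a ≠ d)
    (n6 : a ≠ v) (n7 : b ≠ d) (n8 : b ≠ v) (n9 : c ≠ v) : cycleGraph 6 ⊑ G := by
  have := h1.ne; have := h2.ne; have := h3.ne; have := h4.ne; have := h5.ne; have := h6.ne
  have := h1.symm; have := h2.symm; have := h3.symm; have := h4.symm; have := h5.symm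
  have := h6.symm
  refine ⟨⟨⟨![u, a, b, c, d, v], ?_⟩, ?_⟩⟩
  · intro i j h
    fin_cases i <;> fin_cases j <;>
      first | assumption | exact absurd h (by decide)
  · intro i j h
    fin_cases i <;> fin_cases j <;>
      first | rfl | exact absurd h (by assumption) | exact absurd h.symm (by assumption)

theorem third (p q : ℕ) : ∃ r, 1 ≤ r ∧ r ≤ 3 ∧ r ≠ p ∧ r ≠ q := by
  by_cases h1 : p ≠ 1 ∧ q ≠ 1
  · exact ⟨1, by omega⟩
  · by_cases h2 : p ≠ 2 ∧ q ≠ 2
    · exact ⟨2, by omega⟩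
    · exact ⟨3, by omega⟩

theorem exists_unfold {k p q : ℕ} (hk : 3 ≤ k) (hp : p ≤ k) (hq : q ≤ k) :
    ∃ h : ℕ → ℕ, (∀ i, h i = 0 ↔ i = 0) ∧ (∀ i, h i ≤ k) ∧
      (∀ i ≤ 3, ∀ j ≤ 3, h i = h j → i = j) ∧ (∃ i ≤ 1, h i = p) ∧ (∃ j ≤ 3, h j = q) := by
  have key : ∃ h1 h2 h3 : ℕ, 1 ≤ h1 ∧ h1 ≤ k ∧ 1 ≤ h2 ∧ h2 ≤ k ∧ 1 ≤ h3 ∧ h3 ≤ k ∧ h1 ≠ h2 ∧
      h1 ≠ h3 ∧ h2 ≠ h3 ∧ (p = 0 ∨ p = h1) ∧ (q = 0 ∨ q = h1 ∨ q = h2) := by
    by_cases hp0 : p = 0
    · by_cases hq0 : q = 0
      · exact ⟨1, 2, 3, by omega⟩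
      · obtain ⟨r, hr⟩ := third q q
        obtain ⟨s, hs⟩ := third q r
        exact ⟨q, r, s, by omega⟩
    · by_cases hq0 : q = 0 ∨ q = p
      · obtain ⟨r, hr⟩ := third p p
        obtain ⟨s, hs⟩ := third p r
        exact ⟨p, r, s, by omega⟩
      · obtain ⟨s, hs⟩ := third p q
        exact ⟨p, q, s, by omega⟩
  obtain ⟨h1, h2, h3, H⟩ := key
  refine ⟨fun i => if i = 0 then 0 else if i = 1 then h1 else if i = 2 then h2 else h3,
    ?_, ?_, ?_, ?_, ?_⟩
  · intro i; dsimp only; split_ifs <;> omega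
  · intro i; dsimp only; split_ifs <;> omega
  · intro i hi j hj; dsimp only; split_ifs <;> omega
  · by_cases hp0 : p = 0
    · exact ⟨0, by omega, by simp [hp0]⟩
    · exact ⟨1, by omega, by simp; omega⟩
  · by_cases hq0 : q = 0
    · exact ⟨0, by omega, by simp [hq0]⟩
    · by_cases hq1 : q = h1
      · exact ⟨1, by omega, by simp [hq1]⟩
      · exact ⟨2, by omega, by simp; omega⟩

theorem saturated {b TO : ℕ} (hg : good b TO = true) {k : ℕ} (hk : 3 ≤ k)
    (u v : Fin (b + 24 * k)) (huv : u ≠ v) (hn : ¬ (glued hg _).Adj u v) :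
    cycleGraph 6 ⊑ glued hg _ ⊔ edge u v := by
  have hb := good_b hg
  obtain ⟨h, h0, hle, hinj, ⟨i, hi, hiu⟩, ⟨j, hj, hjv⟩⟩ :=
    exists_unfold hk (cp_le u.2) (cp_le v.2)
  have vu : Val b i (lc b u) := by
    have := val_cp_lc b u
    have := h0 i
    unfold Val at *; omega
  have vv : Val b j (lc b v) := by
    have := val_cp_lc b v
    have := h0 j
    unfold Val at *; omega
  have lu := val_lt hg vu
  have lv := val_lt hg vv
  -- decoding of valid codes
  have hval : ∀ a, Val b (a / 64) (a % 64) → Val b (h (a / 64)) (a % 64) := by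
    intro a ha
    have := h0 (a / 64)
    unfold Val at *; omega
  let dec : (a : ℕ) → Val b (a / 64) (a % 64) → Fin (b + 24 * k) := fun a ha =>
    ⟨mkv b (h (a / 64)) (a % 64), mkv_lt (hval a ha) (hle _)⟩
  have dcp : ∀ a ha, cp b (dec a ha) = h (a / 64) := fun a ha => cp_mkv (hval a ha)
  have dlc : ∀ a ha, lc b (dec a ha) = a % 64 := fun a ha => lc_mkv (hval a ha)
  have dadj : ∀ a ha c hc, a < 256 → (nb TO a).testBit c = true →
      (glued hg _).Adj (dec a ha) (dec c hc) := by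
    intro a ha c hc ha' hac
    show R TO _ _ _ _
    rw [dcp a ha, dcp c hc, dlc a ha, dlc c hc]
    exact R_map h (h0 _) (h0 _) ((nb_iff TO a c ha').1 hac).2
  have dne : ∀ a ha c hc, a < 256 → c < 256 → a ≠ c → dec a ha ≠ dec c hc := by
    intro a ha c hc ha' hc' hac e
    have e1 := dcp a ha
    have e2 := dlc a ha
    rw [e, dcp c hc] at e1
    rw [e, dlc c hc] at e2
    have := hinj _ (by omega) _ (by omega) e1
    omega
  have step : ∀ a c, a < 256 → (nb TO a).testBit c = true → c < 256 ∧ Val b (c / 64) (c % 64) := by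
    intro a c ha hac
    have := (nb_iff TO a c ha).1 hac
    exact ⟨this.1, (R_spec hg (by omega) this.2).2.1⟩
  set s := 64 * i + lc b u with hs
  set w := 64 * j + lc b v with hw
  have s1 : s / 64 = i := by omega
  have s2 : s % 64 = lc b u := by omega
  have w1 : w / 64 = j := by omega
  have w2 : w % 64 = lc b v := by omega
  have vs : Val b (s / 64) (s % 64) := by rw [s1, s2]; exact vu
  have vw : Val b (w / 64) (w % 64) := by rw [w1, w2]; exact vv
  have du : dec s vs = u := Fin.ext (cp_lc_inj (b := b) (by rw [dcp s vs, s1, hiu]) (by rw [dlc s vs, s2]))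
  have dv : dec w vw = v := Fin.ext (cp_lc_inj (b := b) (by rw [dcp w vw, w1, hjv]) (by rw [dlc w vw, w2]))
  have ls : s < 256 := by omega
  have lw : w < 256 := by omega
  have hw' : (validMask b).testBit w = true := by
    rw [validMask_iff _ _ hb.2]
    unfold Val at vw; omega
  rw [← (chk_spec hg hi vu).2.2, Nat.testBit_or, Nat.testBit_or, Bool.or_eq_true,
    Bool.or_eq_true, ← hs] at hw'
  rcases hw' with (h5 | h5) | h5
  · rw [reach_four _ (nb_lt TO)] at h5
    obtain ⟨a, a', c, d, ⟨e1, e2, e3, e4, e5⟩, n1, ⟨n2, n3⟩, ⟨⟨n4, n5⟩, n6⟩,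
      ⟨⟨⟨n7, n8⟩, n9⟩, n10⟩, ⟨⟨⟨n11, n12⟩, n13⟩, n14⟩, n15⟩ := h5
    obtain ⟨l1, v1⟩ := step _ _ ls e1
    obtain ⟨l2, v2⟩ := step _ _ l1 e2
    obtain ⟨l3, v3⟩ := step _ _ l2 e3
    obtain ⟨l4, v4⟩ := step _ _ l3 e4
    have L : glued hg (b + 24 * k) ≤ glued hg _ ⊔ edge u v := le_sup_left
    refine six_of_path _ (dec s vs) (dec a v1) (dec a' v2) (dec c v3) (dec d v4) (dec w vw)
      (L (dadj _ vs _ v1 ls e1)) (L (dadj _ v1 _ v2 l1 e2)) (L (dadj _ v2 _ v3 l2 e3))
      (L (dadj _ v3 _ v4 l3 e4)) (L (dadj _ v4 _ vw l4 e5)) ?_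
      (dne _ vs _ v2 ls l2 n2) (dne _ vs _ v3 ls l3 n4) (dne _ vs _ v4 ls l4 n7)
      (dne _ v1 _ v3 l1 l3 n5) (dne _ v1 _ v4 l1 l4 n8) (dne _ v1 _ vw l1 lw n12)
      (dne _ v2 _ v4 l2 l4 n9) (dne _ v2 _ vw l2 lw n13) (dne _ v3 _ vw l3 lw n14)
    rw [du, dv]
    exact Or.inr ((edge_adj ..).2 ⟨Or.inr ⟨rfl, rfl⟩, huv.symm⟩)
  · exact absurd (du ▸ dv ▸ dadj s vs w vw ls h5) hn
  · rw [Nat.testBit_two_pow, decide_eq_true_eq] at h5
    exact absurd (du ▸ dv ▸ (by simp only [h5])) huv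

theorem exists_graph {b TO : ℕ} (hg : goodF b TO = true) {k n : ℕ} (hk : 3 ≤ k)
    (hn : n = b + 24 * k) : ∃ G : SimpleGraph (Fin n),
      (¬ cycleGraph 6 ⊑ G ∧ ∀ u v, u ≠ v → ¬ G.Adj u v → cycleGraph 6 ⊑ G ⊔ edge u v) ∧
        ¬ cycleGraph 4 ⊑ G := by
  subst hn
  have hg' := good_of_goodF hg
  exact ⟨glued hg' _, ⟨no_six hg', saturated hg' hk⟩, no_four hg'⟩

end Pool.Agent.Lib.MP_7874c9_co
end
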