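import Pool.Agent.Lib.MP_7874c9_co.Reach

namespace Pool.Agent.Lib.MP_7874c9_co

/-- row `x` of a table of 64-bit rows -/
def sel (T x : ℕ) : ℕ := (T >>> (64 * x)) % 2 ^ 64

/-- adjacency inside the repeated gadget on 24 vertices -/
def TA : ℕ := 41812255514185474814236295458817888894783863009724813339704310568542477310912229181491818086260621939970681929009219298096628601749464175551458376022610863347296165349243647135118231980590116577680275603530154951036716049559338951744938772166752166692211619881868222971042785565668600500857338397822127884479227366420943552588364716318126553372704471216619309867942847140593400531393849655500962111757456811588686474512419518878495618002046694400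

/-- core vertex to gadget vertices -/
def TC : ℕ := 471103242318959414059050200421570533682462720

/-- gadget vertex to core vertices -/
def TD : ℕ := 261326596963659217570560340447456000818670272937503240772159412376810532786347279965499266815307473699666561912317330492719170613963884966342577628490049080630258184990060384160724110969593109462467677544249059046056179872635777624703526311490903026475041779313394553254966160461462394025014805157401079951693577746610318997383435149694974980884999581885818766023401474085959872142306549260120535274546777106099085869415777149448272136590327808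

/-- neighbourhood masks of the model with three copies of the gadget -/
def nb (TO v : ℕ) : ℕ :=
  if v < 64 then sel TO v ||| (sel TC v <<< 64) ||| (sel TC v <<< 128) ||| (sel TC v <<< 192)
  else if v < 256 then sel TD (v % 64) ||| (sel TA (v % 64) <<< (64 * (v / 64))) else 0

/-- adjacency between vertex `x` of block `j` and vertex `y` of block `i` -/
def R (TO j x i y : ℕ) : Prop :=
  (j = 0 ∧ i = 0 ∧ (sel TO x).testBit y = true) ∨ (j = 0 ∧ i ≠ 0 ∧ (sel TC x).testBit y = true) ∨
  (j ≠ 0 ∧ i = 0 ∧ (sel TD x).testBit y = true) ∨ (j ≠ 0 ∧ j = i ∧ (sel TA x).testBit y = true)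

theorem sel_lt (T x : ℕ) : sel T x < 2 ^ 64 := Nat.mod_lt _ (by norm_num)

theorem sel_testBit_lt {T x y : ℕ} (h : (sel T x).testBit y = true) : y < 64 := by
  by_contra hy
  have : (sel T x).testBit y = false :=
    Nat.testBit_eq_false_of_lt (lt_of_lt_of_le (sel_lt T x)
      (Nat.pow_le_pow_right (by norm_num) (by omega)))
  simp [this] at h

theorem shift_iff (T x k w : ℕ) :
    (sel T x <<< (64 * k)).testBit w = true ↔ w / 64 = k ∧ (sel T x).testBit (w % 64) = true := by
  rw [Nat.testBit_shiftLeft]
  simp only [Bool.and_eq_true, decide_eq_true_eq]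
  constructor
  · rintro ⟨h1, h2⟩
    have := sel_testBit_lt h2
    have e : w - 64 * k = w % 64 := by omega
    exact ⟨by omega, e ▸ h2⟩
  · rintro ⟨h1, h2⟩
    have e : w - 64 * k = w % 64 := by omega
    exact ⟨by omega, e ▸ h2⟩

theorem nb_iff (TO v w : ℕ) (hv : v < 256) :
    (nb TO v).testBit w = true ↔ w < 256 ∧ R TO (v / 64) (v % 64) (w / 64) (w % 64) := by
  have s0 : ∀ T x, (sel T x).testBit w = true ↔
      w / 64 = 0 ∧ (sel T x).testBit (w % 64) = true := by
    intro T x; simpa using shift_iff T x 0 w
  unfold nb R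
  by_cases h : v < 64
  · have e1 : v / 64 = 0 := by omega
    have e2 : v % 64 = v := by omega
    have s1 := shift_iff TC v 1 w
    have s2 := shift_iff TC v 2 w
    have s3 := shift_iff TC v 3 w
    norm_num at s1 s2 s3
    simp only [h, if_true, Nat.testBit_or, Bool.or_eq_true, e1, e2, s0 TO v,
      Nat.testBit_shiftLeft, Bool.and_eq_true, decide_eq_true_eq, ge_iff_le, s1, s2, s3]
    constructor
    · rintro (((⟨h1, h2⟩ | ⟨h1, h2⟩) | ⟨h1, h2⟩) | ⟨h1, h2⟩)
      · exact ⟨by omega, Or.inl ⟨trivial, h1, h2⟩⟩
      · exact ⟨by omega, Or.inr (Or.inl ⟨trivial, by omega, h2⟩)⟩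
      · exact ⟨by omega, Or.inr (Or.inl ⟨trivial, by omega, h2⟩)⟩
      · exact ⟨by omega, Or.inr (Or.inl ⟨trivial, by omega, h2⟩)⟩
    · rintro ⟨hw, ⟨-, h1, h2⟩ | ⟨-, h1, h2⟩ | ⟨h1, -⟩ | ⟨h1, -⟩⟩
      · exact Or.inl (Or.inl (Or.inl ⟨h1, h2⟩))
      · have : w / 64 = 1 ∨ w / 64 = 2 ∨ w / 64 = 3 := by omega
        rcases this with h3 | h3 | h3
        · exact Or.inl (Or.inl (Or.inr ⟨h3, h2⟩))
        · exact Or.inl (Or.inr ⟨h3, h2⟩)
        · exact Or.inr ⟨h3, h2⟩
      · exact absurd rfl h1
      · exact absurd rfl h1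
  · have e1 : v / 64 ≠ 0 := by omega
    simp only [h, hv, if_true, if_false, Nat.testBit_or, Bool.or_eq_true, s0 TD, shift_iff]
    constructor
    · rintro (⟨h1, h2⟩ | ⟨h1, h2⟩)
      · exact ⟨by omega, Or.inr (Or.inr (Or.inl ⟨e1, h1, h2⟩))⟩
      · exact ⟨by omega, Or.inr (Or.inr (Or.inr ⟨e1, h1.symm, h2⟩))⟩
    · rintro ⟨hw, ⟨h1, -⟩ | ⟨h1, -⟩ | ⟨-, h1, h2⟩ | ⟨-, h1, h2⟩⟩
      · exact absurd h1 e1
      · exact absurd h1 e1
      · exact Or.inl ⟨h1, h2⟩
      · exact Or.inr ⟨h1.symm, h2⟩

theorem nb_lt (TO v : ℕ) : nb TO v < 2 ^ 256 := by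
  apply Nat.lt_pow_two_of_testBit
  intro i hi
  by_cases hv : v < 256
  · by_contra hc
    have := ((nb_iff TO v i hv).1 (by simpa using hc)).1
    omega
  · have h1 : ¬ v < 64 := by omega
    simp [nb, h1, hv]

/-- the valid codes of the model -/
def validMask (b : ℕ) : ℕ :=
  (2 ^ b - 1) ||| ((2 ^ 24 - 1) <<< 64) ||| ((2 ^ 24 - 1) <<< 128) ||| ((2 ^ 24 - 1) <<< 192)

theorem validMask_iff (b w : ℕ) (hb : b ≤ 64) : (validMask b).testBit w = true ↔
    w < 256 ∧ ((w / 64 = 0 ∧ w % 64 < b) ∨ (w / 64 ≠ 0 ∧ w % 64 < 24)) := by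
  simp only [validMask, Nat.testBit_or, Bool.or_eq_true, Nat.testBit_shiftLeft,
    Nat.testBit_two_pow_sub_one, Bool.and_eq_true, decide_eq_true_eq]
  omega

/-- check at one start vertex -/
def chk (b TO s : ℕ) : Bool :=
  !(validMask b).testBit s ||
    ((reach (nb TO) 2 s (2 ^ s) &&& nb TO s) == 0 &&
      force (reach (nb TO) 4 s (2 ^ s)) (fun m =>
        if (m &&& nb TO s) = 0 ∧ (m ||| nb TO s ||| 2 ^ s) = validMask b then 1 else 0) == 1)

/-- symmetry and range check of two tables -/
def symOk (T T' p q : ℕ) : Bool :=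
  (List.range 64).all fun x => (List.range 64).all fun y =>
    !(sel T x).testBit y || (decide (x < p) && decide (y < q) && (sel T' y).testBit x)

def irrOk (T : ℕ) : Bool := (List.range 64).all fun x => !(sel T x).testBit x

theorem symOk_spec {T T' p q : ℕ} (h : symOk T T' p q = true) {x y : ℕ} (hx : x < 64)
    (hxy : (sel T x).testBit y = true) : x < p ∧ y < q ∧ (sel T' y).testBit x = true := by
  have hy := sel_testBit_lt hxy
  simp only [symOk, List.all_eq_true, List.mem_range] at h
  have := h x hx y hy
  simp only [hxy, Bool.not_true, Bool.false_or, Bool.and_eq_true, decide_eq_true_eq] at this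
  tauto

theorem irrOk_spec {T : ℕ} (h : irrOk T = true) {x : ℕ} (hx : x < 64) :
    ¬ (sel T x).testBit x = true := by
  simp only [irrOk, List.all_eq_true, List.mem_range] at h
  simpa using h x hx

theorem symA : symOk TA TA 24 24 = true := by decide +kernel
theorem symC : symOk TC TD 3 24 = true := by decide +kernel
theorem symD : symOk TD TC 24 3 = true := by decide +kernel
theorem irrA : irrOk TA = true := by decide +kernel

/-- all checks for one base table -/
def good (b TO : ℕ) : Bool :=
  decide (3 ≤ b) && decide (b ≤ 64) && symOk TO TO b b && irrOk TO &&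
    (List.range 128).all (chk b TO)

end Pool.Agent.Lib.MP_7874c9_co
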