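import Mathlib

namespace Pool.Agent.Lib.MP_7874c9_co

/-- force evaluation of a natural number before passing it on -/
def force (n : ℕ) (k : ℕ → ℕ) : ℕ :=
  match n with
  | 0 => k 0
  | m + 1 => k (m + 1)

theorem force_eq (n : ℕ) (k : ℕ → ℕ) : force n k = k n := by
  cases n <;> rfl

/-- bitwise or of `f a` over the set bits `a` of `m` -/
def orBits (f : ℕ → ℕ) : ℕ → ℕ → ℕ
  | 0, _ => 0
  | fuel + 1, m =>
    match m with
    | 0 => 0
    | m' + 1 => force (Nat.log2 (m' + 1)) fun a =>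
        force ((m' + 1) ^^^ 2 ^ a) fun m2 => f a ||| orBits f fuel m2

theorem testBit_orBits (f : ℕ → ℕ) (w : ℕ) : ∀ (fuel m : ℕ), m < 2 ^ fuel →
    (Nat.testBit (orBits f fuel m) w = true ↔ ∃ a, m.testBit a = true ∧ (f a).testBit w = true)
  | 0, m, h => by
    have : m = 0 := by simpa using h
    subst this; simp [orBits]
  | fuel + 1, 0, _ => by simp [orBits]
  | fuel + 1, m' + 1, h => by
    have hne : m' + 1 ≠ 0 := by omega
    set M := m' + 1 with hM
    have h1 : 2 ^ Nat.log2 M ≤ M := Nat.log2_self_le hne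
    have h2 : M < 2 ^ (Nat.log2 M + 1) := Nat.lt_log2_self
    have hb : M.testBit (Nat.log2 M) = true := Nat.testBit_log2 hne
    have hl : Nat.log2 M ≤ fuel := by
      have : Nat.log2 M < fuel + 1 := (Nat.log2_lt hne).2 h
      omega
    have hx : M ^^^ 2 ^ Nat.log2 M < 2 ^ fuel := by
      apply Nat.lt_pow_two_of_testBit
      intro i hi
      rw [Nat.testBit_xor, Nat.testBit_two_pow]
      by_cases hia : Nat.log2 M = i
      · subst hia; simp [hb]
      · have : M.testBit i = false := by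
          apply Nat.testBit_eq_false_of_lt
          exact lt_of_lt_of_le h2 (Nat.pow_le_pow_right (by norm_num) (by omega))
        simp [this, hia]
    have ih := testBit_orBits f w fuel _ hx
    have e : orBits f (fuel + 1) M
        = f (Nat.log2 M) ||| orBits f fuel (M ^^^ 2 ^ Nat.log2 M) := by
      rw [hM]; simp only [orBits, force_eq]
    rw [e, Nat.testBit_or, Bool.or_eq_true, ih]
    constructor
    · rintro (h3 | ⟨a, ha, hfa⟩)
      · exact ⟨_, hb, h3⟩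
      · refine ⟨a, ?_, hfa⟩
        rw [Nat.testBit_xor, Nat.testBit_two_pow] at ha
        by_cases hia : Nat.log2 M = a
        · subst hia; exact hb
        · simpa [hia] using ha
    · rintro ⟨a, ha, hfa⟩
      by_cases hia : Nat.log2 M = a
      · subst hia; exact Or.inl hfa
      · refine Or.inr ⟨a, ?_, hfa⟩
        rw [Nat.testBit_xor, Nat.testBit_two_pow]
        simp [hia, ha]

/-- endpoints of the paths with `d + 1` edges starting at `v` and avoiding `used` -/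
def reach (nb : ℕ → ℕ) : ℕ → ℕ → ℕ → ℕ
  | 0, v, used => force (nb v) fun m => m ^^^ (m &&& used)
  | d + 1, v, used => force (nb v) fun m => force (m ^^^ (m &&& used)) fun m2 =>
      orBits (fun a => force (used ||| 2 ^ a) fun u2 => reach nb d a u2) 256 m2

theorem testBit_diff (m u a : ℕ) :
    (m ^^^ (m &&& u)).testBit a = true ↔ m.testBit a = true ∧ u.testBit a = false := by
  rw [Nat.testBit_xor, Nat.testBit_and]
  cases m.testBit a <;> cases u.testBit a <;> simp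

theorem reach_zero (nb : ℕ → ℕ) (v used w : ℕ) :
    (reach nb 0 v used).testBit w = true ↔ (nb v).testBit w = true ∧ used.testBit w = false := by
  simp only [reach, force_eq, testBit_diff]

theorem reach_succ (nb : ℕ → ℕ) (hnb : ∀ v, nb v < 2 ^ 256) (d v used w : ℕ) :
    (reach nb (d + 1) v used).testBit w = true ↔
      ∃ a, ((nb v).testBit a = true ∧ used.testBit a = false) ∧
        (reach nb d a (used ||| 2 ^ a)).testBit w = true := by
  simp only [reach, force_eq]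
  rw [testBit_orBits]
  · simp only [testBit_diff]
  · exact Nat.xor_lt_two_pow (hnb v) (lt_of_le_of_lt Nat.and_le_left (hnb v))

theorem reach_two (nb : ℕ → ℕ) (hnb : ∀ v, nb v < 2 ^ 256) (s w : ℕ) :
    (reach nb 2 s (2 ^ s)).testBit w = true ↔
      ∃ a b, (nb s).testBit a = true ∧ (nb a).testBit b = true ∧ (nb b).testBit w = true ∧
        s ≠ a ∧ s ≠ b ∧ a ≠ b ∧ s ≠ w ∧ a ≠ w ∧ b ≠ w := by
  simp only [reach_succ nb hnb, reach_zero, Nat.testBit_or, Nat.testBit_two_pow,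
    Bool.or_eq_false_iff, decide_eq_false_iff_not]
  constructor
  · rintro ⟨a, ⟨h1, h2⟩, b, ⟨h3, h4, h5⟩, h6, ⟨h7, h8⟩, h9⟩
    exact ⟨a, b, h1, h3, h6, h2, h4, h5, h7, h8, h9⟩
  · rintro ⟨a, b, h1, h3, h6, h2, h4, h5, h7, h8, h9⟩
    exact ⟨a, ⟨h1, h2⟩, b, ⟨h3, h4, h5⟩, h6, ⟨h7, h8⟩, h9⟩

theorem reach_four (nb : ℕ → ℕ) (hnb : ∀ v, nb v < 2 ^ 256) (s w : ℕ) :
    (reach nb 4 s (2 ^ s)).testBit w = true ↔
      ∃ a b c d, ((nb s).testBit a = true ∧ (nb a).testBit b = true ∧ (nb b).testBit c = true ∧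
        (nb c).testBit d = true ∧ (nb d).testBit w = true) ∧
        s ≠ a ∧ (s ≠ b ∧ a ≠ b) ∧ ((s ≠ c ∧ a ≠ c) ∧ b ≠ c) ∧ (((s ≠ d ∧ a ≠ d) ∧ b ≠ d) ∧ c ≠ d) ∧
        ((((s ≠ w ∧ a ≠ w) ∧ b ≠ w) ∧ c ≠ w) ∧ d ≠ w) := by
  simp only [reach_succ nb hnb, reach_zero, Nat.testBit_or, Nat.testBit_two_pow,
    Bool.or_eq_false_iff, decide_eq_false_iff_not]
  constructor
  · rintro ⟨a, ⟨h1, h2⟩, b, ⟨h3, h4⟩, c, ⟨h5, h6⟩, d, ⟨h7, h8⟩, h9, h10⟩
    exact ⟨a, b, c, d, ⟨h1, h3, h5, h7, h9⟩, h2, h4, h6, h8, h10⟩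
  · rintro ⟨a, b, c, d, ⟨h1, h3, h5, h7, h9⟩, h2, h4, h6, h8, h10⟩
    exact ⟨a, ⟨h1, h2⟩, b, ⟨h3, h4⟩, c, ⟨h5, h6⟩, d, ⟨h7, h8⟩, h9, h10⟩

end Pool.Agent.Lib.MP_7874c9_co
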